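import Mathlib
import Pool.Agent.K7.H81.PD.Stm

set_option autoImplicit false

open MeasureTheory Filter Topology
open scoped ContDiff

namespace Pool.Agent.K7.H71.PDUNI

open Pool.Agent.K7.H81.PD

variable {N : ℕ} {Ω : Set (E N)}

theorem add {φ ψ : E N → ℝ} (h1 : Cci Ω φ) (h2 : Cci Ω ψ) : Cci Ω (fun x => φ x + ψ x) :=
  ⟨h1.1.add h2.1, h1.2.1.add h2.2.1, (tsupport_add φ ψ).trans (Set.union_subset h1.2.2 h2.2.2)⟩

theorem neg {φ : E N → ℝ} (h1 : Cci Ω φ) : Cci Ω (fun x => -φ x) := by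
  refine ⟨h1.1.neg, h1.2.1.neg, ?_⟩
  have : tsupport (fun x => -φ x) = tsupport φ := by
    unfold tsupport
    congr 1
    ext x
    simp [Function.mem_support]
  rw [this]
  exact h1.2.2

theorem mul {φ ψ : E N → ℝ} (h1 : Cci Ω φ) (h2 : Cci Ω ψ) : Cci Ω (fun x => φ x * ψ x) := by
  refine ⟨h1.1.mul h2.1, h1.2.1.mul_right, ?_⟩
  exact (tsupport_mul_subset_left (f := φ) (g := ψ)).trans h1.2.2

theorem intg {h φ : E N → ℝ} (hh : IntegrableOn h Ω) (h1 : Cci Ω φ) :
    IntegrableOn (fun x => h x * φ x) Ω := by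
  obtain ⟨C, hC⟩ := h1.2.1.exists_bound_of_continuous h1.1.continuous
  exact Integrable.mul_bdd (c := C) hh h1.1.continuous.aestronglyMeasurable
    (Eventually.of_forall hC)

theorem whole {h φ : E N → ℝ} (h1 : Cci Ω φ) :
    ∫ x, φ x • h x = ∫ x in Ω, h x * φ x := by
  rw [← setIntegral_eq_integral_of_forall_compl_eq_zero (s := Ω) (f := fun x => φ x • h x)]
  · refine integral_congr_ae (Eventually.of_forall fun x => ?_)
    simp [mul_comm]
  · intro x hx
    have : φ x = 0 := by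
      by_contra h0
      exact hx (h1.2.2 (subset_tsupport φ (Function.mem_support.2 h0)))
    simp [this]

theorem t : StUni := by
  intro N Ω h _ hO _ hS hh hz
  have hA : ∀ g, Cci Ω g → (∀ x, 0 ≤ g x) → ∫ x in Ω, h x * g x = 0 := by
    intro g hg h0
    obtain ⟨ζ, hζ1, hζ2⟩ := hS g hg
    have h1 := hz ζ hζ1 fun x hx => by rw [hζ2 x hx]; linarith [h0 x]
    have h2 : ∫ x in Ω, h x * lap ζ x = ∫ x in Ω, -(h x * g x) :=
      setIntegral_congr_fun hO.measurableSet fun x hx => by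
        show h x * lap ζ x = -(h x * g x)
        rw [hζ2 x hx]; ring
    rw [h2, integral_neg, neg_eq_zero] at h1
    exact h1
  have hB : ∀ φ ψ, Cci Ω φ → Cci Ω ψ → ∫ x in Ω, h x * φ x * ψ x = 0 := by
    intro φ ψ hφ hψ
    have s1 := add hφ hψ
    have s2 := add hφ (neg hψ)
    have e1 := hA _ (mul s1 s1) fun x => mul_self_nonneg _
    have e2 := hA _ (mul s2 s2) fun x => mul_self_nonneg _
    have i1 := intg hh (mul s1 s1)
    have i2 := intg hh (mul s2 s2)
    have e3 : ∫ x in Ω, h x * φ x * ψ x = ∫ x in Ω, (1 / 4 : ℝ) *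
        (h x * ((φ x + ψ x) * (φ x + ψ x)) - h x * ((φ x + -ψ x) * (φ x + -ψ x))) := by
      refine integral_congr_ae (Eventually.of_forall fun x => ?_)
      simp only
      ring
    rw [e3, integral_const_mul, integral_sub i1 i2, e1, e2]
    simp
  have hC : ∀ φ, Cci Ω φ → ∀ᵐ x, x ∈ Ω → h x * φ x = 0 := by
    intro φ hφ
    refine hO.ae_eq_zero_of_integral_contDiff_smul_eq_zero
      (intg hh hφ).locallyIntegrableOn fun g g1 g2 g3 => ?_
    have hg : Cci Ω g := ⟨g1, g2, g3⟩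
    rw [whole hg]
    exact hB φ g hφ hg
  have hD : ∀ᵐ x, x ∈ Ω → h x = 0 := by
    refine hO.ae_eq_zero_of_integral_contDiff_smul_eq_zero
      hh.locallyIntegrableOn fun g g1 g2 g3 => ?_
    have hg : Cci Ω g := ⟨g1, g2, g3⟩
    rw [whole hg]
    have h1 : ∀ᵐ x ∂(volume.restrict Ω), h x * g x = 0 := by
      rw [ae_restrict_iff' hO.measurableSet]
      exact hC g hg
    rw [integral_congr_ae h1]
    simp
  rw [ae_restrict_iff' hO.measurableSet]
  exact hD

end Pool.Agent.K7.H71.PDUNI
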