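import Mathlib
import Pool.Agent.K7.H47.DM.Stm4

set_option autoImplicit false

open Polynomial

namespace Pool.Agent.K7.H71.D4

open Pool.Agent.K7.H47.DM4

theorem lead (h : StU) (h' : StBlk) : StK := by
  intro ι _ _ t j cl ht hj hex
  classical
  obtain ⟨σ, hσ, hmax⟩ : ∃ σ, Feas t j σ ∧ ∀ τ, Feas t j τ → Wt t cl τ ≤ Wt t cl σ := by
    obtain ⟨σ0, hσ0⟩ := hex
    obtain ⟨σ, hσ, hm⟩ := Finset.exists_max_image
      (Finset.univ.filter fun σ : Equiv.Perm ι => Feas t j σ) (Wt t cl)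
      ⟨σ0, Finset.mem_filter.2 ⟨Finset.mem_univ _, hσ0⟩⟩
    exact ⟨σ, (Finset.mem_filter.1 hσ).2,
      fun τ hτ => hm τ (Finset.mem_filter.2 ⟨Finset.mem_univ _, hτ⟩)⟩
  have hdet := h' ι t j cl ht hj σ hσ
  intro h0
  apply hdet
  have hc := congrArg (fun p : ℚ[X] => p.coeff (Wt t cl σ)) h0
  simp only [coeff_zero] at hc
  refine Eq.trans ?_ hc
  rw [Matrix.det_apply, Matrix.det_apply, finsetSum_coeff]
  refine Finset.sum_congr rfl fun τ _ => ?_
  have e1 : ∏ c, (Matrix.of fun r c => (C (((t r).choose (j c) : ℕ) : ℚ) * X ^ (cl c * t r) : ℚ[X]))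
      (τ c) c = C (∏ c, (((t (τ c)).choose (j c) : ℕ) : ℚ)) * X ^ (Wt t cl τ) := by
    simp only [Matrix.of_apply]
    rw [Finset.prod_mul_distrib, ← map_prod, Finset.prod_pow_eq_pow_sum]
    rfl
  rw [e1, coeff_smul, coeff_C_mul_X_pow]
  congr 1
  simp only [Matrix.of_apply]
  by_cases hP : ∀ c, cl (σ.symm (τ c)) = cl c
  · have hW : Wt t cl τ = Wt t cl σ := by
      unfold Wt
      calc ∑ c, cl c * t (τ c) = ∑ c, cl (σ.symm (τ c)) * t (τ c) :=
            Finset.sum_congr rfl fun c _ => by rw [hP c]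
        _ = ∑ r, cl (σ.symm r) * t r := Equiv.sum_comp τ (fun r => cl (σ.symm r) * t r)
        _ = ∑ c, cl (σ.symm (σ c)) * t (σ c) :=
            (Equiv.sum_comp σ (fun r => cl (σ.symm r) * t r)).symm
        _ = ∑ c, cl c * t (σ c) := by simp
    rw [if_pos hW.symm]
    refine Finset.prod_congr rfl fun c _ => ?_
    rw [if_pos (hP c)]
  · have hl : ∏ c, (if cl (σ.symm (τ c)) = cl c then (((t (τ c)).choose (j c) : ℕ) : ℚ) else 0)
        = 0 := by
      push Not at hP
      obtain ⟨c, hc⟩ := hP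
      exact Finset.prod_eq_zero (Finset.mem_univ c) (if_neg hc)
    rw [hl]
    by_cases hW : Wt t cl σ = Wt t cl τ
    · rw [if_pos hW]
      have hnf : ¬ Feas t j τ := by
        intro hF
        apply hP
        intro c
        have := h ι t j cl ht σ τ hσ hF hmax (fun ρ hρ => hW ▸ hmax ρ hρ) (τ c)
        rw [this, Equiv.symm_apply_apply]
      unfold Feas at hnf
      push Not at hnf
      obtain ⟨c, hc⟩ := hnf
      symm
      refine Finset.prod_eq_zero (Finset.mem_univ c) ?_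
      rw [Nat.choose_eq_zero_of_lt hc, Nat.cast_zero]
    · rw [if_neg hW]

end Pool.Agent.K7.H71.D4
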