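import Mathlib
import Pool.Agent.K7.H80.EC.Stm

set_option autoImplicit false

namespace Pool.Agent.K7.H71.ECPREC

open Pool.Agent.K7.H80.EC Finset

/-- the first `n` elements of `R` -/
theorem firsts {α : Type} (f : α → ℕ) (hf : Function.Injective f) (R : Finset α) (n : ℕ)
    (hn : n ≤ R.card) :
    ∃ B ⊆ R, B.card = n ∧ ∀ a ∈ B, ∀ x ∈ R, x ∉ B → f a < f x := by
  classical
  induction n with
  | zero => exact ⟨∅, empty_subset _, rfl, by simp⟩
  | succ n ih =>
    obtain ⟨B, hB, hc, hf'⟩ := ih (by omega)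
    have hne : (R \ B).Nonempty := by
      rw [sdiff_nonempty]
      intro h
      have := card_le_card h
      omega
    obtain ⟨m, hm, hmin⟩ := exists_min_image (R \ B) f hne
    rw [mem_sdiff] at hm
    refine ⟨insert m B, insert_subset hm.1 hB, by rw [card_insert_of_notMem hm.2, hc], ?_⟩
    intro a ha x hx hxB
    rw [mem_insert, not_or] at hxB
    rcases mem_insert.1 ha with rfl | ha
    · refine lt_of_le_of_ne (hmin x (mem_sdiff.2 ⟨hx, hxB.2⟩)) ?_
      intro h
      exact hxB.1 (hf h).symm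
    · exact hf' a ha x hx hxB.2

/-- a permutation of `α` which maps `R` to itself and `A` to `B` -/
theorem perm {α : Type} [Fintype α] (A B R : Finset α) (hA : A ⊆ R) (hB : B ⊆ R)
    (h : A.card = B.card) :
    ∃ g : Equiv.Perm α, ∀ x ∈ R, g x ∈ R ∧ (x ∈ A ↔ g x ∈ B) := by
  classical
  have cA : ∀ C : Finset α, C ⊆ R → Fintype.card {x : {x // x ∈ R} // (x : α) ∈ C} = C.card := by
    intro C hC
    rw [← Fintype.card_coe C]
    refine Fintype.card_congr ⟨fun x => ⟨x.1.1, x.2⟩, fun x => ⟨⟨x.1, hC x.2⟩, x.2⟩, ?_, ?_⟩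
    · intro x; rfl
    · intro x; rfl
  have e : {x : {x // x ∈ R} // (x : α) ∈ A} ≃ {x : {x // x ∈ R} // (x : α) ∈ B} :=
    Fintype.equivOfCardEq (by rw [cA A hA, cA B hB, h])
  let g' : Equiv.Perm {x // x ∈ R} := e.extendSubtype
  refine ⟨Equiv.Perm.ofSubtype g', fun x hx => ?_⟩
  have h1 : Equiv.Perm.ofSubtype g' x = (g' ⟨x, hx⟩ : {x // x ∈ R}) :=
    Equiv.Perm.ofSubtype_apply_of_mem g' hx
  rw [h1]
  refine ⟨(g' ⟨x, hx⟩).2, fun hxA => ?_, fun hgB => ?_⟩
  · exact e.extendSubtype_mem ⟨x, hx⟩ hxA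
  · by_contra hxA
    exact e.extendSubtype_not_mem ⟨x, hx⟩ hxA hgB

theorem t : StPrec := by
  intro α _ A R hAR
  classical
  have h1 : (univ : Finset (Fin (Fintype.card α) ≃ α)) ⊆ (R.powersetCard A.card).biUnion
      fun B => univ.filter fun σ : Fin (Fintype.card α) ≃ α =>
        ∀ a ∈ B, ∀ f ∈ R, f ∉ B → σ.symm a < σ.symm f := by
    intro σ _
    obtain ⟨B, hB, hc, hf⟩ := firsts (fun a => ((σ.symm a : Fin _) : ℕ))
      (Fin.val_injective.comp σ.symm.injective) R A.card (card_le_card hAR)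
    rw [mem_biUnion]
    refine ⟨B, mem_powersetCard.2 ⟨hB, hc⟩, mem_filter.2 ⟨mem_univ _, ?_⟩⟩
    intro a ha f hfR hfB
    exact hf a ha f hfR hfB
  have h2 : ∀ B ∈ R.powersetCard A.card, (univ.filter fun σ : Fin (Fintype.card α) ≃ α =>
      ∀ a ∈ B, ∀ f ∈ R, f ∉ B → σ.symm a < σ.symm f).card ≤
      (univ.filter fun σ : Fin (Fintype.card α) ≃ α =>
        ∀ a ∈ A, ∀ f ∈ R, f ∉ A → σ.symm a < σ.symm f).card := by
    intro B hB
    rw [mem_powersetCard] at hB
    obtain ⟨g, hg⟩ := perm A B R hAR hB.1 hB.2.symm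
    refine card_le_card_of_injOn (fun σ => σ.trans g.symm) ?_ ?_
    · intro σ hσ
      have hσ' := (mem_filter.1 hσ).2
      refine mem_coe.2 (mem_filter.2 ⟨mem_univ _, ?_⟩)
      intro a ha f hf hfA
      show σ.symm (g a) < σ.symm (g f)
      exact hσ' (g a) ((hg a (hAR ha)).2.1 ha) (g f) (hg f hf).1 fun h => hfA ((hg f hf).2.2 h)
    · intro σ _ τ _ hst
      have h3 : σ.trans g.symm = τ.trans g.symm := hst
      ext i
      have h4 := congrArg (fun e : Fin (Fintype.card α) ≃ α => e i) h3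
      exact g.symm.injective h4
  have h3 : Fintype.card (Fin (Fintype.card α) ≃ α) ≤ R.card ^ A.card *
      (univ.filter fun σ : Fin (Fintype.card α) ≃ α =>
        ∀ a ∈ A, ∀ f ∈ R, f ∉ A → σ.symm a < σ.symm f).card := by
    rw [← card_univ]
    refine (card_le_card h1).trans (card_biUnion_le.trans ((sum_le_sum h2).trans ?_))
    rw [sum_const, smul_eq_mul, card_powersetCard]
    exact Nat.mul_le_mul_right _ (Nat.choose_le_pow _ _)
  have h4 : ((Fintype.card (Fin (Fintype.card α) ≃ α) : ℕ) : ℝ) ≤ ((R.card ^ A.card *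
      (univ.filter fun σ : Fin (Fintype.card α) ≃ α =>
        ∀ a ∈ A, ∀ f ∈ R, f ∉ A → σ.symm a < σ.symm f).card : ℕ) : ℝ) := by exact_mod_cast h3
  push_cast at h4
  convert h4

end Pool.Agent.K7.H71.ECPREC
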