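import Mathlib
import Pool.Agent.K7.H87.EX.Stm2

set_option autoImplicit false

namespace Pool.Agent.K7.H71.EXLEV

open Pool.Agent.K7.H87.EX

section

variable {N : Type} [Group N] [LinearOrder N]

/-- the absolute value -/
def ab (a : N) : N := max a a⁻¹

theorem one_le_ab (hl : ∀ a b c : N, a ≤ b → c * a ≤ c * b) (a : N) : 1 ≤ ab a := by
  unfold ab
  rcases le_total 1 a with h | h
  · exact le_max_of_le_left h
  · refine le_max_of_le_right ?_
    have := hl a 1 a⁻¹ h
    rwa [inv_mul_cancel, mul_one] at this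

theorem ab_mem (C : Subgroup N) (a : N) : ab a ∈ C ↔ a ∈ C := by
  unfold ab
  rcases max_choice a a⁻¹ with h | h
  · rw [h]
  · rw [h]
    exact inv_mem_iff

theorem chain (hl : ∀ a b c : N, a ≤ b → c * a ≤ c * b) (C C' : Subgroup N) (hC : Conv C)
    (hC' : Conv C') : C ≤ C' ∨ C' ≤ C := by
  by_cases h : C' ≤ C
  · exact Or.inr h
  · left
    obtain ⟨b, hb', hb⟩ := SetLike.not_le_iff_exists.1 h
    intro a ha
    rw [← ab_mem] at ha ⊢
    rw [← ab_mem] at hb hb'
    have hlt : ab a < ab b := by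
      by_contra hcon
      push Not at hcon
      exact hb (hC (ab b) (ab a) (one_le_ab hl b) hcon ha)
    exact hC' (ab a) (ab b) (one_le_ab hl a) hlt.le hb'

/-- the convex subgroups which do not contain `a` -/
def S (a : N) : Set (Subgroup N) := {C : Subgroup N | Conv C ∧ a ∉ C}

theorem nested (hl : ∀ a b c : N, a ≤ b → c * a ≤ c * b) (a b : N) : S a ⊆ S b ∨ S b ⊆ S a := by
  by_contra hcon
  push Not at hcon
  obtain ⟨h1, h2⟩ := hcon
  obtain ⟨C, ⟨hC, haC⟩, hCb⟩ := Set.not_subset.1 h1
  obtain ⟨C', ⟨hC', hbC'⟩, hCa⟩ := Set.not_subset.1 h2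
  have hbC : b ∈ C := by
    by_contra h
    exact hCb ⟨hC, h⟩
  have haC' : a ∈ C' := by
    by_contra h
    exact hCa ⟨hC', h⟩
  rcases chain hl C C' hC hC' with h | h
  · exact hbC' (h hbC)
  · exact haC (h haC')

end

theorem t : StLev := by
  intro N _ _ hl _ hfin
  have fin : ∀ a : N, (S a).Finite := fun a => hfin.subset fun C hC => hC.1
  have hlev : ∀ a : N, lev a = (S a).ncard := fun a => rfl
  refine ⟨?_, ?_, ?_, ?_, ?_⟩
  · intro a
    rw [hlev, Set.ncard_eq_zero (fin a)]
    constructor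
    · intro h
      by_contra ha
      have : (⊥ : Subgroup N) ∈ S a := by
        refine ⟨?_, fun h => ha (Subgroup.mem_bot.1 h)⟩
        intro x y hx hxy hy
        rw [Subgroup.mem_bot] at hy ⊢
        rw [hy] at hxy
        exact le_antisymm hxy hx
      rw [h] at this
      exact this
    · rintro rfl
      refine Set.eq_empty_of_forall_notMem fun C hC => ?_
      exact hC.2 C.one_mem
  · intro a b
    rw [hlev, hlev, hlev]
    rcases nested hl a b with h | h
    · refine le_max_of_le_right (Set.ncard_le_ncard ?_ (fin b))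
      rintro C ⟨hC, hab⟩
      refine ⟨hC, fun hb => ?_⟩
      have ha : a ∈ C := by
        by_contra ha
        exact (h ⟨hC, ha⟩).2 hb
      exact hab (C.mul_mem ha hb)
    · refine le_max_of_le_left (Set.ncard_le_ncard ?_ (fin a))
      rintro C ⟨hC, hab⟩
      refine ⟨hC, fun ha => ?_⟩
      have hb : b ∈ C := by
        by_contra hb
        exact (h ⟨hC, hb⟩).2 ha
      exact hab (C.mul_mem ha hb)
  · intro a
    rw [hlev, hlev]
    congr 1
    ext C
    show (Conv C ∧ a⁻¹ ∉ C) ↔ (Conv C ∧ a ∉ C)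
    rw [inv_mem_iff]
  · intro a b
    rw [hlev, hlev]
    constructor
    · intro h
      have h1 : ¬ S b ⊆ S a := fun hs => absurd (Set.ncard_le_ncard hs (fin a)) (not_le.2 h)
      obtain ⟨C, ⟨hC, hb⟩, hCa⟩ := Set.not_subset.1 h1
      refine ⟨C, hC, ?_, hb⟩
      by_contra ha
      exact hCa ⟨hC, ha⟩
    · rintro ⟨C, hC, ha, hb⟩
      have hCb : C ∈ S b := ⟨hC, hb⟩
      have hCa : C ∉ S a := fun h => h.2 ha
      have hsub : S a ⊆ S b := by
        rcases nested hl a b with h | h
        · exact h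
        · exact absurd (h hCb) hCa
      exact Set.ncard_lt_ncard ⟨hsub, fun h => hCa (h hCb)⟩ (fin b)
  · exact ⟨{C : Subgroup N | Conv C}.ncard, fun a => Set.ncard_le_ncard (fun C hC => hC.1) hfin⟩

end Pool.Agent.K7.H71.EXLEV
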