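import Pool.Agent.K7.H50.OG.Basic

set_option autoImplicit false

/-! Project OG, job F. -/

namespace Pool.Agent.K7.H71.OG

open Pool.Agent.K7.H50.OG

/-- the word -/
def wF (k a b : ℕ) (x : ℕ) : Fin 5 :=
  if x = a then 0 else if x < k then 1 else if x = k then 2 else if x = k + b - 1 then 4 else 3

theorem stF : StF := by
  intro k E a a1 b b1 _ _ h1 h2 h3 h4 h5 e1 e2 e3 e4 _ _
  refine ⟨wF k a b, ?_⟩
  rintro ⟨f, hf1, hf2, hf3⟩
  -- edges from the left to the right part
  have key : ∀ i j, 1 ≤ i → i < j → j ≤ k → E i j → f i < k → k < f j →
      f i = a ∧ f j = k + b - 1 := by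
    intro i j hi hij hj he hl hr
    have h := hf3 i j hi hij hj he
    by_cases hA : f i = a
    · by_cases hB : f j = k + b - 1
      · exact ⟨hA, hB⟩
      · exfalso
        have c1 : wF k a b (f i) = 0 := by unfold wF; rw [if_pos hA]
        have c2 : wF k a b (f j) = 3 := by
          unfold wF
          rw [if_neg (by omega), if_neg (by omega), if_neg (by omega), if_neg hB]
        simp only [c1, c2] at h
        revert h
        decide
    · exfalso
      have c1 : wF k a b (f i) = 1 := by unfold wF; rw [if_neg hA, if_pos hl]
      have c2 : wF k a b (f j) = 3 ∨ wF k a b (f j) = 4 := by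
        unfold wF
        rw [if_neg (by omega), if_neg (by omega), if_neg (by omega)]
        split_ifs
        · right; rfl
        · left; rfl
      simp only [c1] at h
      rcases c2 with c2 | c2 <;> simp only [c2] at h <;> revert h <;> decide
  have m1 := hf2 1 b le_rfl (by omega) (by omega)
  have m2 := hf2 b b1 (by omega) h4 (by omega)
  have m3 := hf2 a b (by omega) h3 (by omega)
  have m4 := hf2 a1 a (by omega) h2 (by omega)
  have ck : wF k a b k = 2 := by
    unfold wF
    rw [if_neg (by omega), if_neg (by omega), if_pos rfl]
  rcases Nat.lt_or_ge k (f k) with hk | hk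
  · rcases Nat.lt_or_ge (f 1) k with h6 | h6
    · rcases Nat.lt_trichotomy (f b) k with h7 | h7 | h7
      · have g1 := key a k (by omega) (by omega) le_rfl e3 (by omega) hk
        have g2 := key a1 k (by omega) (by omega) le_rfl e4 (by omega) hk
        omega
      · have g1 := key 1 b1 le_rfl (by omega) (by omega) e2 h6 (by omega)
        have h := hf3 1 b le_rfl (by omega) (by omega) e1
        have c1 : wF k a b (f 1) = 0 := by unfold wF; rw [if_pos g1.1]
        simp only [c1, h7, ck] at h
        revert h
        decide
      · have g1 := key 1 b le_rfl (by omega) (by omega) e1 h6 h7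
        have g2 := key 1 b1 le_rfl (by omega) (by omega) e2 h6 (by omega)
        omega
    · have g1 := mono_gap hf2 le_rfl (show 1 ≤ b by omega) (by omega)
      have g2 := mono_gap hf2 (show 1 ≤ b by omega) (show b ≤ k by omega) le_rfl
      have g3 := hf1 k (by omega) le_rfl
      have g4 : f 1 = k := by omega
      have g5 : f b = k + b - 1 := by omega
      have h := hf3 1 b le_rfl (by omega) (by omega) e1
      have c2 : wF k a b (k + b - 1) = 4 := by
        unfold wF
        rw [if_neg (by omega), if_neg (by omega), if_neg (by omega), if_pos rfl]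
      simp only [g4, g5, ck, c2] at h
      revert h
      decide
  · have g1 := mono_gap hf2 le_rfl (show 1 ≤ a by omega) (by omega)
    have g2 := mono_gap hf2 (show 1 ≤ a by omega) (show a ≤ k by omega) le_rfl
    have g3 := hf1 1 le_rfl (by omega)
    have g4 : f k = k := by omega
    have g5 : f a = a := by omega
    have h := hf3 a k (by omega) (by omega) le_rfl e3
    have c1 : wF k a b a = 0 := by unfold wF; rw [if_pos rfl]
    simp only [g4, g5, ck, c1] at h
    revert h
    decide

end Pool.Agent.K7.H71.OG
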