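import Mathlib
import Pool.Agent.K7.H81.PD.Stm

set_option autoImplicit false

open MeasureTheory Filter Topology
open scoped ContDiff

namespace Pool.Agent.K7.H71.PDMOL

open Pool.Agent.K7.H81.PD

variable {N : ℕ}

/-- the translated and reflected mollifier is a test function -/
theorem bump_cci {Ω : Set (E N)} (b : ContDiffBump (0 : E N)) (x : E N)
    (h : Metric.closedBall x b.rOut ⊆ Ω) : Cci Ω (fun z => b.normed volume (x - z)) := by
  have hsub : tsupport (fun z => b.normed volume (x - z)) ⊆ Metric.closedBall x b.rOut := by
    refine closure_minimal ?_ Metric.isClosed_closedBall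
    intro z hz
    have h1 : x - z ∈ Function.support (b.normed (volume : Measure (E N))) := hz
    rw [b.support_normed_eq, Metric.mem_ball, dist_zero_right] at h1
    rw [Metric.mem_closedBall, dist_comm, dist_eq_norm]
    exact h1.le
  refine ⟨?_, ?_, hsub.trans h⟩
  · exact (b.contDiff_normed (n := ⊤)).comp (contDiff_const.sub contDiff_id)
  · exact (isCompact_closedBall x b.rOut).of_isClosed_subset (isClosed_tsupport _) hsub

/-- integrals against a restricted function -/
theorem ind {Ω : Set (E N)} (hO : MeasurableSet Ω) (u F : E N → ℝ) :
    ∫ y, F y * Ω.indicator u y = ∫ y in Ω, u y * F y := by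
  rw [← integral_indicator hO]
  refine integral_congr_ae (Eventually.of_forall fun y => ?_)
  by_cases hy : y ∈ Ω
  · simp [Set.indicator_of_mem hy, mul_comm]
  · simp [Set.indicator_of_notMem hy]

theorem bdd (b : ContDiffBump (0 : E N)) : ∃ C : ℝ, ∀ x, ‖b.normed (volume : Measure (E N)) x‖ ≤ C :=
  b.hasCompactSupport_normed.exists_bound_of_continuous b.continuous_normed

/-- the mollification of a measure is continuous -/
theorem g_cont (m : Measure (E N)) [IsFiniteMeasure m] (b : ContDiffBump (0 : E N)) :
    Continuous (fun x => ∫ y, b.normed (volume : Measure (E N)) (x - y) ∂m) := by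
  obtain ⟨C, hC⟩ := bdd b
  refine continuous_of_dominated (bound := fun _ => C) ?_ ?_ (integrable_const C) ?_
  · intro x
    exact (b.continuous_normed.comp (continuous_const.sub continuous_id)).aestronglyMeasurable
  · intro x
    exact Eventually.of_forall fun y => hC _
  · exact Eventually.of_forall fun y =>
      b.continuous_normed.comp (continuous_id.sub continuous_const)

open ContinuousLinearMap in
/-- the mollification of a function, as a convolution -/
theorem conv (b : ContDiffBump (0 : E N)) (φ : E N → ℝ) (y : E N) :
    ∫ x, φ x * b.normed volume (x - y) =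
      (convolution (b.normed volume) φ (lsmul ℝ ℝ) volume) y := by
  rw [convolution_lsmul_swap]
  refine integral_congr_ae (Eventually.of_forall fun x => ?_)
  have h1 : b.normed (volume : Measure (E N)) (x - y) = b.normed volume (y - x) := by
    rw [← b.normed_neg, neg_sub]
  simp only [smul_eq_mul]
  rw [h1, mul_comm]

open ContinuousLinearMap in
theorem last {Ω : Set (E N)} (hO : IsOpen Ω) (m : Measure (E N)) [IsFiniteMeasure m]
    (b : ℕ → ContDiffBump (0 : E N)) (hb : Tendsto (fun k => (b k).rOut) atTop (𝓝 0))
    (φ : E N → ℝ) (hφ : Cci Ω φ) :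
    Tendsto (fun k => ∫ x in Ω, φ x * ∫ y in Ω, (b k).normed volume (x - y) ∂m) atTop
      (𝓝 (∫ x in Ω, φ x ∂m)) := by
  obtain ⟨C, hC⟩ := hφ.2.1.exists_bound_of_continuous hφ.1.continuous
  have hint : Integrable φ := hφ.1.continuous.integrable_of_hasCompactSupport hφ.2.1
  have h1 : ∀ k, ∫ x in Ω, φ x * ∫ y in Ω, (b k).normed volume (x - y) ∂m =
      ∫ y in Ω, (convolution ((b k).normed volume) φ (lsmul ℝ ℝ) volume) y ∂m := by
    intro k
    obtain ⟨B, hB⟩ := bdd (b k)
    have h2 : ∫ x in Ω, φ x * ∫ y in Ω, (b k).normed volume (x - y) ∂m =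
        ∫ x in Ω, ∫ y in Ω, φ x * (b k).normed volume (x - y) ∂m := by
      refine integral_congr_ae (Eventually.of_forall fun x => ?_)
      simp only
      rw [integral_const_mul]
    rw [h2, integral_integral_swap]
    · refine integral_congr_ae (Eventually.of_forall fun y => ?_)
      simp only
      rw [← conv]
      refine setIntegral_eq_integral_of_forall_compl_eq_zero fun x hx => ?_
      have : φ x = 0 := by
        by_contra h0
        exact hx (hφ.2.2 (subset_tsupport φ (Function.mem_support.2 h0)))
      rw [this, zero_mul]
    · have h3 : Integrable (fun z : E N × E N => φ z.1 * (fun _ : E N => (1 : ℝ)) z.2)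
          (((volume : Measure (E N)).restrict Ω).prod (m.restrict Ω)) :=
        (hint.restrict (s := Ω)).mul_prod (integrable_const 1)
      have h4 : Integrable (fun z : E N × E N =>
          (φ z.1 * (fun _ : E N => (1 : ℝ)) z.2) * (b k).normed volume (z.1 - z.2))
          (((volume : Measure (E N)).restrict Ω).prod (m.restrict Ω)) := by
        refine Integrable.mul_bdd (c := B) h3 ?_ (Eventually.of_forall fun z => hB _)
        exact ((b k).continuous_normed.comp
          (continuous_fst.sub continuous_snd)).aestronglyMeasurable
      refine h4.congr (Eventually.of_forall fun z => ?_)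
      simp [Function.uncurry]
  simp only [h1]
  refine tendsto_integral_of_dominated_convergence (fun _ => 3 * C) ?_ (integrable_const _) ?_ ?_
  · intro k
    exact ((b k).hasCompactSupport_normed.continuous_convolution_left _ (b k).continuous_normed
      hint.locallyIntegrable).aestronglyMeasurable
  · intro k
    refine Eventually.of_forall fun y => ?_
    have h5 : dist ((convolution ((b k).normed volume) φ (lsmul ℝ ℝ) volume) y) (φ y) ≤ 2 * C := by
      refine ContDiffBump.dist_normed_convolution_le hφ.1.continuous.aestronglyMeasurable ?_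
      intro x _
      rw [Real.dist_eq]
      have := hC x
      have := hC y
      rw [Real.norm_eq_abs] at *
      calc |φ x - φ y| ≤ |φ x| + |φ y| := abs_sub _ _
        _ ≤ 2 * C := by linarith
    rw [Real.dist_eq] at h5
    rw [Real.norm_eq_abs]
    have h6 := hC y
    rw [Real.norm_eq_abs] at h6
    have h7 := abs_add_le ((convolution ((b k).normed volume) φ (lsmul ℝ ℝ) volume) y - φ y) (φ y)
    rw [sub_add_cancel] at h7
    linarith
  · refine Eventually.of_forall fun y => ?_
    exact ContDiffBump.convolution_tendsto_right_of_continuous hb hφ.1.continuous y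

open ContinuousLinearMap in
theorem t : StMol := by
  intro hM1 hM2 N Ω K m u hO hK hKO hm hu hsub
  obtain ⟨δ, hδ, hth⟩ := hK.exists_cthickening_subset_open hO hKO
  let b : ℕ → ContDiffBump (0 : E N) := fun k =>
    ⟨δ / (2 * (k + 2)), δ / (k + 2), by positivity, by
      apply div_lt_div_of_pos_left hδ (by positivity)
      have : (0 : ℝ) ≤ k := Nat.cast_nonneg k
      linarith⟩
  have hbr : ∀ k, (b k).rOut = δ / (k + 2) := fun k => rfl
  have hb : Tendsto (fun k => (b k).rOut) atTop (𝓝 0) := by
    simp only [hbr]
    refine Tendsto.div_atTop tendsto_const_nhds ?_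
    exact tendsto_atTop_add_const_right _ _ tendsto_natCast_atTop_atTop
  have hbδ : ∀ k, (b k).rOut ≤ δ := by
    intro k
    rw [hbr, div_le_iff₀ (by positivity)]
    have : (0 : ℝ) ≤ k := Nat.cast_nonneg k
    nlinarith
  have hU : Integrable (Ω.indicator u) := (integrable_indicator_iff hO.measurableSet).2 hu
  refine ⟨fun k x => ∫ y, (b k).normed volume (x - y) * Ω.indicator u y,
    fun k x => ∫ y in Ω, (b k).normed volume (x - y) ∂m, ?_, ?_, ?_, ?_, ?_, ?_, ?_⟩
  · intro k
    exact (hM2 N _ (b k) hU).1
  · intro k
    exact g_cont (m.restrict Ω) (b k)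
  · intro k x
    exact integral_nonneg fun y => (b k).nonneg_normed _
  · intro k x hx
    rw [(hM2 N _ (b k) hU).2 x, ind hO.measurableSet]
    refine hsub _ (bump_cci (b k) x ?_) fun z => (b k).nonneg_normed _
    exact (Metric.closedBall_subset_closedBall (hbδ k)).trans
      ((Metric.closedBall_subset_cthickening hx δ).trans hth)
  · intro k
    have h1 : Integrable (convolution ((b k).normed volume) (Ω.indicator u) (lsmul ℝ ℝ) volume) :=
      Integrable.integrable_convolution _ (b k).integrable_normed hU
    refine Integrable.integrableOn (h1.congr (Eventually.of_forall fun x => ?_))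
    rw [convolution_lsmul_swap]
    simp only [smul_eq_mul]
  · have h1 := hM1 N _ b hU hb
    refine squeeze_zero (fun k => integral_nonneg fun x => abs_nonneg _) (fun k => ?_) h1
    have h2 : Integrable (fun x => |(∫ y, (b k).normed volume (x - y) * Ω.indicator u y) -
        Ω.indicator u x|) := by
      have h3 : Integrable (convolution ((b k).normed volume) (Ω.indicator u) (lsmul ℝ ℝ)
          volume) := Integrable.integrable_convolution _ (b k).integrable_normed hU
      refine Integrable.abs (Integrable.sub (h3.congr (Eventually.of_forall fun x => ?_)) hU)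
      rw [convolution_lsmul_swap]
      simp only [smul_eq_mul]
    refine le_trans (le_of_eq ?_) (setIntegral_le_integral (s := Ω) h2
      (Eventually.of_forall fun x => abs_nonneg _))
    refine setIntegral_congr_fun hO.measurableSet fun x hx => ?_
    simp only [Set.indicator_of_mem hx]
  · intro φ hφ
    exact last hO m b hb φ hφ

end Pool.Agent.K7.H71.PDMOL
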