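import Mathlib

set_option autoImplicit false

/-!
# A tower of finite 2-groups with prescribed fourth powers

For every `n` there is a finite group `T` with a central involution `z` and a homomorphism `p` of `T`
onto `F₂ ^ n` such that `t ^ 4 = z` for all `t` outside of the kernel of `p`, and `t ^ 4 = 1` for all `t`
in it. The groups are constructed by induction on `n`: the next group consists of the elements
`(t, x, y)`, `x, y : F₂ ^ n → F₂`; `(x, y)` come from an extraspecial group whose centre is generated by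
`z`, `t` acts by the translation by `p t`, and, in addition, `x` and `y` are exchanged if the sum of all
the coordinates of `x` and `y` is `1`.
-/

namespace Pool.Agent.K7.H71.Tower

open Finset

/-- the index group -/
abbrev L (m : ℕ) : Type := Fin m → ZMod 2

/-- functions on the index group -/
abbrev F (m : ℕ) : Type := L m → ZMod 2

/-- translation -/
def sh {m : ℕ} (l : L m) (x : F m) : F m := fun a => x (a + l)

/-- scalar product -/
def dot {m : ℕ} (x y : F m) : ZMod 2 := ∑ a, x a * y a

/-- sum of the coordinates -/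
def eps {m : ℕ} (x : F m) : ZMod 2 := ∑ a, x a

lemma sh_add {m : ℕ} (l : L m) (x y : F m) : sh l (x + y) = sh l x + sh l y := rfl

lemma sh_zero {m : ℕ} (l : L m) : sh l (0 : F m) = 0 := rfl

lemma sh_sh {m : ℕ} (l k : L m) (x : F m) : sh l (sh k x) = sh (l + k) x := by
  funext a
  simp only [sh, add_assoc]

lemma zero_sh {m : ℕ} (x : F m) : sh (0 : L m) x = x := by
  funext a
  simp [sh]

lemma add_self_L {m : ℕ} (l : L m) : l + l = 0 := by
  funext i
  exact CharTwo.add_self_eq_zero (l i)

lemma add_self_F {m : ℕ} (l : F m) : l + l = 0 := by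
  funext i
  exact CharTwo.add_self_eq_zero (l i)

lemma dot_comm {m : ℕ} (x y : F m) : dot x y = dot y x := by
  simp only [dot, mul_comm]

lemma dot_add {m : ℕ} (x y w : F m) : dot x (y + w) = dot x y + dot x w := by
  simp only [dot, Pi.add_apply, mul_add, sum_add_distrib]

lemma add_dot {m : ℕ} (x y w : F m) : dot (x + y) w = dot x w + dot y w := by
  simp only [dot, Pi.add_apply, add_mul, sum_add_distrib]

lemma dot_zero {m : ℕ} (x : F m) : dot x 0 = 0 := by simp [dot]

lemma zero_dot {m : ℕ} (x : F m) : dot 0 x = 0 := by simp [dot]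

lemma dot_sh_sh {m : ℕ} (l : L m) (x y : F m) : dot (sh l x) (sh l y) = dot x y := by
  unfold dot sh
  exact Fintype.sum_equiv (Equiv.addRight l) _ _ (fun a => rfl)

lemma dot_sh {m : ℕ} (l : L m) (x y : F m) : dot (sh l x) y = dot x (sh l y) := by
  have h := dot_sh_sh l x (sh l y)
  rw [sh_sh, add_self_L, zero_sh] at h
  exact h

/-- for `l ≠ 0` the terms of `x · l x` cancel in pairs -/
lemma dot_sh_self {m : ℕ} {l : L m} (hl : l ≠ 0) (x : F m) : dot x (sh l x) = 0 := by
  unfold dot sh
  refine Finset.sum_involution (fun a _ => a + l) ?_ ?_ (fun a _ => mem_univ _) ?_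
  · intro a _
    have h : a + l + l = a := by rw [add_assoc, add_self_L, add_zero]
    rw [h, mul_comm (x (a + l)) (x a)]
    exact CharTwo.add_self_eq_zero _
  · intro a _ _ h
    exact hl (by simpa using h)
  · intro a _
    show a + l + l = a
    rw [add_assoc, add_self_L, add_zero]

lemma dot_self_eq {m : ℕ} (x : F m) : dot x x = eps x := by
  unfold dot eps
  refine sum_congr rfl fun a _ => ?_
  generalize x a = t
  revert t
  decide

lemma eps_add {m : ℕ} (x y : F m) : eps (x + y) = eps x + eps y := by
  simp only [eps, Pi.add_apply, sum_add_distrib]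

lemma eps_zero {m : ℕ} : eps (0 : F m) = 0 := by simp [eps]

lemma eps_sh {m : ℕ} (l : L m) (x : F m) : eps (sh l x) = eps x := by
  unfold eps sh
  exact Fintype.sum_equiv (Equiv.addRight l) _ _ (fun a => rfl)

lemma two_eq : (2 : ZMod 2) = 0 := rfl

/-- The groups of the tower. -/
structure Tw (n : ℕ) where
  /-- the group -/
  T : Type
  [grp : Group T]
  [fin : Fintype T]
  /-- the central involution -/
  z : T
  /-- the homomorphism -/
  p : T → L n
  p_mul : ∀ s t, p (s * t) = p s + p t
  surj : Function.Surjective p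
  z_ne : z ≠ 1
  z_sq : z * z = 1
  z_comm : ∀ t, z * t = t * z
  pow_ne : ∀ t, p t ≠ 0 → t ^ 4 = z
  pow_eq : ∀ t, p t = 0 → t ^ 4 = 1

attribute [instance] Tw.grp Tw.fin

variable {n : ℕ} (D : Tw n)

lemma p_one : D.p 1 = 0 := by
  have h := D.p_mul 1 1
  rw [mul_one] at h
  simpa using h

lemma p_z : D.p D.z = 0 := by
  by_contra h
  have h1 := D.pow_ne _ h
  have h2 : D.z ^ 4 = (D.z * D.z) * (D.z * D.z) := by
    rw [← pow_two, ← pow_two, ← pow_mul]
  rw [h2, D.z_sq, one_mul] at h1
  exact D.z_ne h1.symm

/-- the powers of `z` -/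
def c (a : ZMod 2) : D.T := if a = 0 then 1 else D.z

lemma c_zero : c D 0 = 1 := by simp [c]

lemma c_one : c D 1 = D.z := by simp [c]

lemma c_add (a b : ZMod 2) : c D (a + b) = c D a * c D b := by
  have h : ∀ a : ZMod 2, a = 0 ∨ a = 1 := by decide
  have h11 : (1 + 1 : ZMod 2) = 0 := rfl
  rcases h a with rfl | rfl <;> rcases h b with rfl | rfl
  · simp [c_zero]
  · simp [c_zero]
  · simp [c_zero]
  · rw [h11, c_zero, c_one, D.z_sq]

lemma c_comm (a : ZMod 2) (t : D.T) : c D a * t = t * c D a := by
  unfold c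
  split_ifs
  · simp
  · exact D.z_comm t

lemma p_c (a : ZMod 2) : D.p (c D a) = 0 := by
  unfold c
  split_ifs
  · exact p_one D
  · exact p_z D

/-- The group of the elements `(t, x, y, j)` (as a set). -/
@[ext] structure E {n : ℕ} (D : Tw n) : Type where
  /-- component in the group -/
  t : D.T
  /-- first component -/
  x : F n
  /-- second component -/
  y : F n
  /-- exchange of the two components -/
  j : Bool

namespace E

variable {n : ℕ} {D : Tw n}

/-- multiplication -/
instance : Mul (E D) := ⟨fun g h =>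
  { t := g.t * h.t * c D ((bif g.j then dot h.x h.y else 0) +
      dot g.x (sh (D.p g.t) (bif g.j then h.x else h.y)))
    x := g.x + sh (D.p g.t) (bif g.j then h.y else h.x)
    y := g.y + sh (D.p g.t) (bif g.j then h.x else h.y)
    j := xor g.j h.j }⟩

instance : One (E D) := ⟨⟨1, 0, 0, false⟩⟩

/-- inverse -/
instance : Inv (E D) := ⟨fun g =>
  { t := g.t⁻¹ * c D (bif g.j then 0 else dot g.x g.y)
    x := sh (D.p g.t) (bif g.j then g.y else g.x)
    y := sh (D.p g.t) (bif g.j then g.x else g.y)
    j := g.j }⟩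

lemma mul_t (g h : E D) : (g * h).t = g.t * h.t * c D ((bif g.j then dot h.x h.y else 0) +
      dot g.x (sh (D.p g.t) (bif g.j then h.x else h.y))) := rfl
lemma mul_x (g h : E D) : (g * h).x = g.x + sh (D.p g.t) (bif g.j then h.y else h.x) := rfl
lemma mul_y (g h : E D) : (g * h).y = g.y + sh (D.p g.t) (bif g.j then h.x else h.y) := rfl
lemma mul_j (g h : E D) : (g * h).j = xor g.j h.j := rfl
lemma one_t : (1 : E D).t = 1 := rfl
lemma one_x : (1 : E D).x = 0 := rfl
lemma one_y : (1 : E D).y = 0 := rfl
lemma one_j : (1 : E D).j = false := rfl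

lemma p_mul_c (s t : D.T) (a : ZMod 2) : D.p (s * t * c D a) = D.p s + D.p t := by
  rw [D.p_mul, D.p_mul, p_c, add_zero]

lemma p_mul_c' (s : D.T) (a : ZMod 2) : D.p (s * c D a) = D.p s := by
  rw [D.p_mul, p_c, add_zero]

lemma key (s t u : D.T) {a b a' b' : ZMod 2} (h : a + b = a' + b') :
    s * t * c D a * u * c D b = s * (t * u * c D a') * c D b' := by
  have h1 : s * t * c D a * u * c D b = s * t * u * c D (a + b) := by
    rw [c_add, mul_assoc (s * t), c_comm, ← mul_assoc, mul_assoc _ (c D a)]
  have h2 : s * (t * u * c D a') * c D b' = s * t * u * c D (a' + b') := by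
    rw [c_add]
    simp only [mul_assoc]
  rw [h1, h2, h]

lemma mul_assoc' (g h k : E D) : g * h * k = g * (h * k) := by
  obtain ⟨gt, gx, gy, gj⟩ := g
  obtain ⟨ht, hx, hy, hj⟩ := h
  obtain ⟨kt, kx, ky, kj⟩ := k
  ext1
  · simp only [mul_x, mul_y, mul_t, mul_j, p_mul_c]
    apply key
    generalize D.p gt = gl
    generalize D.p ht = hl
    cases gj <;> cases hj
    · simp only [cond_false, Bool.xor_false, sh_add, dot_add, add_dot, ← sh_sh, dot_sh_sh]
      ring
    · simp only [cond_false, cond_true, Bool.false_xor, sh_add, dot_add, add_dot, ← sh_sh, dot_sh_sh]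
      ring
    · simp only [cond_false, cond_true, Bool.xor_false, sh_add, dot_add, add_dot, ← sh_sh, dot_sh_sh]
      rw [dot_comm hy (sh hl kx), dot_sh]
      linear_combination (-(dot hx (sh hl ky))) * two_eq
    · simp only [cond_false, cond_true, Bool.xor_true, Bool.not_true, sh_add, dot_add, add_dot, ← sh_sh, dot_sh_sh]
      rw [dot_comm hy (sh hl ky), dot_sh, dot_comm ky kx]
      linear_combination (-(dot hx (sh hl kx)) - dot kx ky) * two_eq
  · simp only [mul_x, mul_y, mul_t, mul_j, p_mul_c]
    cases gj <;> cases hj <;> simp [sh_add, sh_sh, add_assoc]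
  · simp only [mul_x, mul_y, mul_t, mul_j, p_mul_c]
    cases gj <;> cases hj <;> simp [sh_add, sh_sh, add_assoc]
  · simp only [mul_j, Bool.xor_assoc]

lemma one_mul' (g : E D) : 1 * g = g := by
  ext1
  · simp only [mul_t, one_x, one_t, one_j, cond_false, zero_dot, zero_add, one_mul, c_zero, mul_one]
  · simp only [mul_x, one_x, one_t, p_one, one_j, cond_false, zero_sh, zero_add]
  · simp only [mul_y, one_y, one_t, p_one, one_j, cond_false, zero_sh, zero_add]
  · simp only [mul_j, one_j, Bool.false_xor]

lemma p_inv (t : D.T) : D.p t⁻¹ = D.p t := by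
  have h : D.p (t⁻¹ * t) = D.p t⁻¹ + D.p t := D.p_mul _ _
  rw [inv_mul_cancel, p_one] at h
  have h2 := add_self_L (D.p t)
  calc D.p t⁻¹ = D.p t⁻¹ + (D.p t + D.p t) := by rw [h2, add_zero]
    _ = D.p t := by rw [← add_assoc, ← h, zero_add]

lemma inv_mul' (g : E D) : g⁻¹ * g = 1 := by
  obtain ⟨gt, gx, gy, gj⟩ := g
  ext1
  · show gt⁻¹ * c D (bif gj then 0 else dot gx gy) * gt * c D ((bif gj then dot gx gy else 0) +
      dot (sh (D.p gt) (bif gj then gy else gx))
        (sh (D.p (gt⁻¹ * c D (bif gj then 0 else dot gx gy))) (bif gj then gx else gy))) = 1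
    rw [p_mul_c', p_inv, dot_sh_sh]
    have h := key (1 : D.T) gt⁻¹ gt (a := (bif gj then 0 else dot gx gy))
      (b := ((bif gj then dot gx gy else 0) + dot (bif gj then gy else gx) (bif gj then gx else gy)))
      (a' := 0) (b' := 0) ?_
    · rw [one_mul] at h
      rw [h]
      simp [c_zero]
    · cases gj
      · simp only [cond_false]
        linear_combination (dot gx gy) * two_eq
      · simp only [cond_true]
        rw [dot_comm gy gx]
        linear_combination (dot gx gy) * two_eq
  · show sh (D.p gt) (bif gj then gy else gx) +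
      sh (D.p (gt⁻¹ * c D (bif gj then 0 else dot gx gy))) (bif gj then gy else gx) = 0
    rw [p_mul_c', p_inv]
    exact add_self_F _
  · show sh (D.p gt) (bif gj then gx else gy) +
      sh (D.p (gt⁻¹ * c D (bif gj then 0 else dot gx gy))) (bif gj then gx else gy) = 0
    rw [p_mul_c', p_inv]
    exact add_self_F _
  · show xor gj gj = false
    simp

instance : Group (E D) := Group.ofLeftAxioms mul_assoc' one_mul' inv_mul'

/-- `E D` as a set -/
def eqv (D : Tw n) : E D ≃ D.T × F n × F n × Bool where
  toFun g := (g.t, g.x, g.y, g.j)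
  invFun p := ⟨p.1, p.2.1, p.2.2.1, p.2.2.2⟩
  left_inv _ := rfl
  right_inv _ := rfl

instance : Fintype (E D) := Fintype.ofEquiv _ (eqv D).symm

/-- squares -/
lemma sq_eq (g : E D) : g * g = ⟨g.t * g.t *
      c D (bif g.j then dot g.x g.y + dot g.x (sh (D.p g.t) g.x) else dot g.x (sh (D.p g.t) g.y)),
    g.x + sh (D.p g.t) (bif g.j then g.y else g.x),
    g.y + sh (D.p g.t) (bif g.j then g.x else g.y), false⟩ := by
  obtain ⟨gt, gx, gy, gj⟩ := g
  ext1
  · show gt * gt * c D ((bif gj then dot gx gy else 0) +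
      dot gx (sh (D.p gt) (bif gj then gx else gy))) = _
    cases gj
    · simp only [cond_false, zero_add]
    · simp only [cond_true]
  · rfl
  · rfl
  · show xor gj gj = false
    simp

lemma c_mul_c (s t : D.T) {a b d : ZMod 2} (h : a + a + b = d) :
    s * t * c D a * (s * t * c D a) * c D b = (s * t) * (s * t) * c D d := by
  generalize s * t = u
  have h1 : u * c D a * (u * c D a) = u * u * c D a * c D a := by
    rw [← mul_assoc, mul_assoc u (c D a) u, c_comm, ← mul_assoc]
  rw [h1, ← h, c_add, c_add]
  simp only [mul_assoc]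

/-- fourth powers -/
lemma pow_four (g : E D) : g ^ 4 = ⟨g.t ^ 4 *
    c D (bif g.j then dot g.x (sh (D.p g.t) g.x) + dot g.y (sh (D.p g.t) g.y) else 0),
    0, 0, false⟩ := by
  have h4 : g ^ 4 = (g * g) * (g * g) := by
    rw [← pow_two, ← pow_two, ← pow_mul]
  have h5 : g.t ^ 4 = (g.t * g.t) * (g.t * g.t) := by
    rw [← pow_two, ← pow_two, ← pow_mul]
  rw [h4, h5, sq_eq (g * g), sq_eq g]
  obtain ⟨gt, gx, gy, gj⟩ := g
  simp only [cond_false, p_mul_c, add_self_L, zero_sh, add_self_F]
  congr 1
  apply c_mul_c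
  generalize D.p gt = gl
  cases gj
  · simp only [cond_false, dot_add, add_dot, dot_sh_sh]
    rw [dot_sh]
    linear_combination (dot gx gy + 2 * dot gx (sh gl gy)) * two_eq
  · simp only [cond_true, dot_add, add_dot, dot_sh_sh]
    rw [dot_comm (sh gl gy) gy, dot_comm gy gx]
    linear_combination (2 * dot gx gy + dot gx (sh gl gx)) * two_eq

/-- `j` as an element of `ZMod 2` -/
def ind (j : Bool) : ZMod 2 := bif j then 1 else 0

lemma ind_xor (i j : Bool) : ind (xor i j) = ind i + ind j := by
  revert i j
  decide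

/-- the subgroup in which `j` is the sum of the coordinates of `x` and of `y` -/
def sub (D : Tw n) : Subgroup (E D) where
  carrier := {g | ind g.j = eps g.x + eps g.y}
  one_mem' := by
    show ind false = eps (0 : F n) + eps (0 : F n)
    rw [eps_zero]; rfl
  mul_mem' := by
    intro g h hg hh
    show ind (xor g.j h.j) = eps (g.x + sh (D.p g.t) (bif g.j then h.y else h.x)) +
      eps (g.y + sh (D.p g.t) (bif g.j then h.x else h.y))
    rw [ind_xor, eps_add, eps_add, eps_sh, eps_sh]
    have hg' : ind g.j = eps g.x + eps g.y := hg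
    have hh' : ind h.j = eps h.x + eps h.y := hh
    rw [hg', hh']
    cases g.j
    · simp only [cond_false]; ring
    · simp only [cond_true]; ring
  inv_mem' := by
    intro g hg
    show ind g.j = eps (sh (D.p g.t) (bif g.j then g.y else g.x)) +
      eps (sh (D.p g.t) (bif g.j then g.x else g.y))
    have hg' : ind g.j = eps g.x + eps g.y := hg
    rw [eps_sh, eps_sh, hg']
    cases g.j
    · simp only [cond_false]
    · simp only [cond_true]; ring

lemma mem_sub {g : E D} : g ∈ sub D ↔ ind g.j = eps g.x + eps g.y := Iff.rfl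

/-- the homomorphism -/
def p' (g : E D) : L (n + 1) := Fin.cons (ind g.j) (D.p g.t)

lemma p'_mul (g h : E D) : p' (g * h) = p' g + p' h := by
  unfold p'
  funext i
  refine Fin.cases ?_ (fun i => ?_) i
  · simp only [Fin.cons_zero, Pi.add_apply, mul_j, ind_xor]
  · simp only [Fin.cons_succ, Pi.add_apply, mul_t, p_mul_c]

lemma pow_four' {g : E D} (hg : g ∈ sub D) :
    (p' g ≠ 0 → g ^ 4 = ⟨D.z, 0, 0, false⟩) ∧ (p' g = 0 → g ^ 4 = 1) := by
  rw [mem_sub] at hg
  rw [pow_four]
  obtain ⟨gt, gx, gy, gj⟩ := g
  by_cases ht : D.p gt = 0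
  · cases gj
    · refine ⟨fun h => absurd ?_ h, fun _ => ?_⟩
      · unfold p'
        funext i
        refine Fin.cases ?_ (fun i => ?_) i
        · rfl
        · simp [ht]
      · simp only [cond_false, c_zero, mul_one]
        rw [D.pow_eq _ ht]
        rfl
    · refine ⟨fun _ => ?_, fun h => absurd h fun h' => ?_⟩
      · simp only [cond_true]
        rw [ht, zero_sh, zero_sh, dot_self_eq, dot_self_eq, D.pow_eq _ ht, one_mul]
        have h1 : eps gx + eps gy = 1 := hg.symm
        rw [h1, c_one]
      · have h1 := congrFun h' 0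
        have h2 : (1 : ZMod 2) = 0 := h1
        exact one_ne_zero h2
  · refine ⟨fun _ => ?_, fun h => absurd h fun h' => ht ?_⟩
    · simp only []
      rw [dot_sh_self ht, dot_sh_self ht, add_zero, Bool.cond_self, c_zero, mul_one, D.pow_ne _ ht]
    · funext i
      have h1 := congrFun h' i.succ
      simpa [p'] using h1

/-- the next group of the tower -/
noncomputable def next (D : Tw n) : Tw (n + 1) where
  T := sub D
  grp := inferInstance
  fin := Fintype.ofFinite _
  z := ⟨⟨D.z, 0, 0, false⟩, by rw [mem_sub]; simp only [eps_zero, add_zero]; rfl⟩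
  p := fun g => p' g.1
  p_mul := fun g h => p'_mul g.1 h.1
  surj := by
    intro v
    obtain ⟨t, ht⟩ := D.surj (Fin.tail v)
    have h2 : ∀ a : ZMod 2, a = 0 ∨ a = 1 := by decide
    rcases h2 (v 0) with h | h
    · refine ⟨⟨⟨t, 0, 0, false⟩, ?_⟩, ?_⟩
      · rw [mem_sub]; simp only [eps_zero, add_zero]; rfl
      · show Fin.cons (ind false) (D.p t) = v
        rw [ht]
        have : ind false = v 0 := h.symm
        rw [this]
        exact Fin.cons_self_tail v
    · refine ⟨⟨⟨t, Pi.single 0 1, 0, true⟩, ?_⟩, ?_⟩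
      · rw [mem_sub]
        simp only [eps_zero, add_zero]
        show (1 : ZMod 2) = ∑ a, (Pi.single 0 1 : F n) a
        rw [Finset.sum_pi_single']
        simp
      · show Fin.cons (ind true) (D.p t) = v
        rw [ht]
        have : ind true = v 0 := h.symm
        rw [this]
        exact Fin.cons_self_tail v
  z_ne := by
    intro h
    have h1 : (⟨D.z, 0, 0, false⟩ : E D) = 1 := congrArg Subtype.val h
    exact D.z_ne (congrArg E.t h1)
  z_sq := by
    apply Subtype.ext
    show (⟨D.z, 0, 0, false⟩ : E D) * ⟨D.z, 0, 0, false⟩ = 1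
    rw [sq_eq]
    simp only [cond_false, p_z, zero_sh, dot_zero, c_zero, mul_one, add_zero, D.z_sq]
    rfl
  z_comm := by
    intro g
    apply Subtype.ext
    show (⟨D.z, 0, 0, false⟩ : E D) * g.1 = g.1 * ⟨D.z, 0, 0, false⟩
    obtain ⟨⟨gt, gx, gy, gj⟩, hg⟩ := g
    ext1
    · simp only [mul_t, cond_false, zero_dot, add_zero, c_zero, mul_one, Bool.cond_self, sh_zero,
        dot_zero, D.z_comm]
    · simp only [mul_x, cond_false, p_z, zero_sh, zero_add, Bool.cond_self, sh_zero, add_zero]
    · simp only [mul_y, cond_false, p_z, zero_sh, zero_add, Bool.cond_self, sh_zero, add_zero]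
    · simp only [mul_j, Bool.false_xor, Bool.xor_false]
  pow_ne := by
    intro g hg
    apply Subtype.ext
    exact (pow_four' g.2).1 hg
  pow_eq := by
    intro g hg
    apply Subtype.ext
    exact (pow_four' g.2).2 hg

end E

/-- the first group of the tower: the cyclic group of order `2` -/
def base : Tw 0 where
  T := Multiplicative (ZMod 2)
  grp := inferInstance
  fin := inferInstance
  z := Multiplicative.ofAdd 1
  p := fun _ => 0
  p_mul := fun _ _ => by simp
  surj := fun v => ⟨1, by funext i; exact i.elim0⟩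
  z_ne := by decide
  z_sq := by decide
  z_comm := fun t => mul_comm _ _
  pow_ne := fun t h => absurd rfl h
  pow_eq := by
    intro t _
    revert t
    decide

/-- the tower -/
noncomputable def tower : (n : ℕ) → Tw n
  | 0 => base
  | n + 1 => E.next (tower n)

end Pool.Agent.K7.H71.Tower
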