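import Mathlib
import Pool.Agent.K7.H71.Tower
import Pool.Agent.H32BU.All

set_option autoImplicit false

/-!
# `ρ_48` and `ε_48`

`ρ k G` is the proportion of the elements of the finite group `G` whose order divides `k`, and
`ε k` is the supremum of `ρ k G` over the finite non-soluble groups `G`. We prove that `ε 48 = 1`, and
that the exponent of a finite non-soluble group does not divide `48`, so that `ρ 48 G < ε 48` for
all finite non-soluble groups `G`.
-/

namespace Pool.Agent.K7.H71.RhoK

open Tower Equiv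

/-- `ρ_k(G)`: the proportion of the elements of `G` whose order divides `k`. -/
noncomputable def rho (k : ℕ) (G : Type) [Group G] : ℝ :=
  (Nat.card {g : G // orderOf g ∣ k} : ℝ) / Nat.card G

/-- `ε_k`: the supremum of `ρ_k(G)` over all finite non-soluble groups `G`. -/
noncomputable def epsilon (k : ℕ) : ℝ :=
  sSup {r : ℝ | ∃ (G : Type) (_ : Group G) (_ : Finite G), ¬ Group.IsSolvable G ∧ r = rho k G}

/-! ### odd permutations of five points -/

lemma odd_pow (s : Perm (Fin 5)) (h : Perm.sign s = -1) : s ^ 12 = 1 := by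
  revert s
  decide +kernel

lemma alt_not_solvable : ¬ Group.IsSolvable (alternatingGroup (Fin 5)) := by
  intro h
  apply Equiv.Perm.not_isSolvable_fin_5
  have : Group.IsSolvable ℤˣ := inferInstance
  exact Group.isSolvable_of_ker_le_range (alternatingGroup (Fin 5)).subtype
    (Perm.sign (α := Fin 5)) (by rw [Subgroup.range_subtype]; rfl)

/-- a transposition -/
def tau : Perm (Fin 5) := swap 0 1

lemma tau_sq : tau * tau = 1 := by decide

lemma tau_inv : tau⁻¹ = tau := by decide

lemma sign_tau : Perm.sign tau = -1 := by decide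

variable {n : ℕ} (D : Tw n)

/-- The non-soluble group: the elements `(f, t)` of the wreath product such that all `f x` are even and
`f (x z) = τ f(x) τ⁻¹`. -/
def W : Subgroup (RegularWreathProduct (Perm (Fin 5)) D.T) where
  carrier := {g | (∀ x, Perm.sign (g.left x) = 1) ∧ ∀ x, g.left (x * D.z) = tau * g.left x * tau}
  one_mem' := by
    refine ⟨fun x => ?_, fun x => ?_⟩
    · simp
    · simp [tau_sq]
  mul_mem' := by
    intro g h hg hh
    refine ⟨fun x => ?_, fun x => ?_⟩
    · show Perm.sign (g.left x * h.left (g.right⁻¹ * x)) = 1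
      rw [map_mul, hg.1, hh.1, one_mul]
    · show g.left (x * D.z) * h.left (g.right⁻¹ * (x * D.z)) =
        tau * (g.left x * h.left (g.right⁻¹ * x)) * tau
      rw [← mul_assoc g.right⁻¹, hg.2, hh.2]
      calc tau * g.left x * tau * (tau * h.left (g.right⁻¹ * x) * tau)
          = tau * g.left x * (tau * tau) * (h.left (g.right⁻¹ * x) * tau) := by
            simp only [mul_assoc]
        _ = _ := by rw [tau_sq, mul_one]; simp only [mul_assoc]
  inv_mem' := by
    intro g hg
    refine ⟨fun x => ?_, fun x => ?_⟩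
    · show Perm.sign (g.left (g.right * x))⁻¹ = 1
      rw [map_inv, hg.1, inv_one]
    · show (g.left (g.right * (x * D.z)))⁻¹ = tau * (g.left (g.right * x))⁻¹ * tau
      rw [← mul_assoc g.right, hg.2, mul_inv_rev, mul_inv_rev, tau_inv, mul_assoc]

lemma mem_W {g : RegularWreathProduct (Perm (Fin 5)) D.T} : g ∈ W D ↔
    (∀ x, Perm.sign (g.left x) = 1) ∧ ∀ x, g.left (x * D.z) = tau * g.left x * tau := Iff.rfl

instance : Finite (W D) := inferInstance

lemma pow_base {Q : Type} [Group Q] (f : Q → Perm (Fin 5)) (k : ℕ) :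
    (⟨f, 1⟩ : RegularWreathProduct (Perm (Fin 5)) Q) ^ k = ⟨fun x => f x ^ k, 1⟩ := by
  induction k with
  | zero => simp only [pow_zero]; rfl
  | succ k ih =>
    rw [pow_succ, ih]
    ext1
    · funext x
      show f x ^ k * f (1⁻¹ * x) = f x ^ (k + 1)
      rw [inv_one, one_mul, pow_succ]
    · show (1 : Q) * 1 = 1
      rw [one_mul]

lemma pow_48 {g : RegularWreathProduct (Perm (Fin 5)) D.T} (hg : g ∈ W D) (h : D.p g.right ≠ 0) :
    g ^ 48 = 1 := by
  have h4 : (g ^ 4).right = D.z := by
    rw [← D.pow_ne _ h]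
    exact map_pow RegularWreathProduct.rightHom g 4
  have hm := (W D).pow_mem hg 4
  rw [mem_W] at hm
  obtain ⟨u, hu⟩ : ∃ u, g ^ 4 = u := ⟨_, rfl⟩
  rw [hu] at h4 hm
  have h8 : u ^ 2 = ⟨fun x => (u.left x * tau) ^ 2, 1⟩ := by
    rw [pow_two]
    ext1
    · funext x
      show u.left x * u.left (u.right⁻¹ * x) = (u.left x * tau) ^ 2
      have hz : D.z⁻¹ = D.z := by
        rw [inv_eq_iff_mul_eq_one, D.z_sq]
      rw [h4, hz, D.z_comm, hm.2, pow_two]
      simp only [mul_assoc]
    · show u.right * u.right = 1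
      rw [h4, D.z_sq]
  have h1 : g ^ 48 = (u ^ 2) ^ 6 := by
    rw [← hu, ← pow_mul, ← pow_mul]
  rw [h1, h8, pow_base]
  ext1
  · funext x
    show ((u.left x * tau) ^ 2) ^ 6 = 1
    rw [← pow_mul]
    apply odd_pow
    rw [map_mul, hm.1, one_mul, sign_tau]
  · rfl

/-! ### the group `W D` is not soluble -/

open Classical in
/-- the functions which are trivial outside of `{1, z}` -/
noncomputable def bump (a : Perm (Fin 5)) (x : D.T) : Perm (Fin 5) :=
  if x = 1 then a else if x = D.z then tau * a * tau else 1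

lemma bump_mul (a b : Perm (Fin 5)) (x : D.T) : bump D (a * b) x = bump D a x * bump D b x := by
  unfold bump
  split_ifs
  · rfl
  · calc tau * (a * b) * tau = tau * a * 1 * (b * tau) := by rw [mul_one]; simp only [mul_assoc]
      _ = _ := by rw [← tau_sq]; simp only [mul_assoc]
  · rw [one_mul]

lemma bump_mem {a : Perm (Fin 5)} (ha : Perm.sign a = 1) :
    (⟨bump D a, 1⟩ : RegularWreathProduct (Perm (Fin 5)) D.T) ∈ W D := by
  rw [mem_W]
  refine ⟨fun x => ?_, fun x => ?_⟩
  · show Perm.sign (bump D a x) = 1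
    unfold bump
    split_ifs
    · exact ha
    · rw [map_mul, map_mul, ha, sign_tau]; rfl
    · exact map_one _
  · show bump D a (x * D.z) = tau * bump D a x * tau
    unfold bump
    by_cases h1 : x = 1
    · subst h1
      rw [one_mul, if_neg D.z_ne, if_pos rfl, if_pos rfl]
    · by_cases h2 : x = D.z
      · subst h2
        rw [D.z_sq, if_pos rfl, if_neg D.z_ne, if_pos rfl]
        calc a = 1 * a * 1 := by rw [one_mul, mul_one]
          _ = _ := by rw [← tau_sq]; simp only [mul_assoc]
      · have h3 : ¬ x * D.z = 1 := by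
          intro h
          apply h2
          rw [mul_eq_one_iff_eq_inv] at h
          rw [h, inv_eq_iff_mul_eq_one, D.z_sq]
        have h4 : ¬ x * D.z = D.z := fun h => h1 (by simpa using h)
        rw [if_neg h3, if_neg h4, if_neg h1, if_neg h2, mul_one, tau_sq]

/-- the embedding of the alternating group -/
noncomputable def emb : alternatingGroup (Fin 5) →* W D where
  toFun a := ⟨⟨bump D a.1, 1⟩, bump_mem D (Perm.mem_alternatingGroup.1 a.2)⟩
  map_one' := by
    apply Subtype.ext
    show (⟨bump D 1, 1⟩ : RegularWreathProduct (Perm (Fin 5)) D.T) = 1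
    ext1
    · funext x
      show bump D 1 x = 1
      unfold bump
      split_ifs
      · rfl
      · rw [mul_one, tau_sq]
      · rfl
    · rfl
  map_mul' a b := by
    apply Subtype.ext
    show (⟨bump D (a.1 * b.1), 1⟩ : RegularWreathProduct (Perm (Fin 5)) D.T) =
      ⟨bump D a.1, 1⟩ * ⟨bump D b.1, 1⟩
    ext1
    · funext x
      show bump D (a.1 * b.1) x = bump D a.1 x * bump D b.1 (1⁻¹ * x)
      rw [inv_one, one_mul, bump_mul]
    · show (1 : D.T) = 1 * 1
      rw [one_mul]

lemma emb_injective : Function.Injective (emb D) := by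
  intro a b h
  have h1 := congrArg (fun g : W D => g.1.left 1) h
  have h2 : bump D a.1 1 = bump D b.1 1 := h1
  unfold bump at h2
  rw [if_pos rfl, if_pos rfl] at h2
  exact Subtype.ext h2

lemma W_not_solvable : ¬ Group.IsSolvable (W D) := fun _ =>
  alt_not_solvable (Group.isSolvable_of_isSolvable_injective (emb_injective D))

/-! ### the proportion -/

/-- the homomorphism onto `F₂ ^ n` -/
def phi : W D →* Multiplicative (L n) where
  toFun g := Multiplicative.ofAdd (D.p g.1.right)
  map_one' := by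
    show Multiplicative.ofAdd (D.p 1) = 1
    rw [p_one]; rfl
  map_mul' g h := by
    show Multiplicative.ofAdd (D.p (g.1.right * h.1.right)) = _
    rw [D.p_mul]; rfl

lemma phi_surjective : Function.Surjective (phi D) := by
  intro v
  obtain ⟨t, ht⟩ := D.surj (Multiplicative.toAdd v)
  refine ⟨⟨⟨1, t⟩, ?_⟩, ?_⟩
  · rw [mem_W]
    refine ⟨fun x => map_one _, fun x => ?_⟩
    show (1 : Perm (Fin 5)) = tau * 1 * tau
    rw [mul_one, tau_sq]
  · show Multiplicative.ofAdd (D.p t) = v
    rw [ht]; rfl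

lemma card_ker : Nat.card (phi D).ker * 2 ^ n = Nat.card (W D) := by
  rw [← Subgroup.card_mul_index (phi D).ker, Subgroup.index_ker,
    MonoidHom.range_eq_top.2 (phi_surjective D)]
  congr 1
  simp [L]

lemma le_rho : 1 - (1 / 2 : ℝ) ^ n ≤ rho 48 (W D) := by
  have h0 : (0 : ℝ) < Nat.card (W D) := by exact_mod_cast Nat.card_pos
  have h1 : Nat.card {g : W D // ¬ orderOf g ∣ 48} ≤ Nat.card (phi D).ker := by
    apply Nat.card_le_card_of_injective
      (fun g : {g : W D // ¬ orderOf g ∣ 48} => (⟨g.1, ?_⟩ : (phi D).ker))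
    · intro a b h
      exact Subtype.ext (congrArg (fun u : (phi D).ker => u.1) h)
    · rw [MonoidHom.mem_ker]
      by_contra h
      apply g.2
      apply orderOf_dvd_of_pow_eq_one
      apply Subtype.ext
      exact pow_48 D g.1.2 (fun h' => h (by
        show Multiplicative.ofAdd (D.p g.1.1.right) = 1
        rw [h']; rfl))
  have h2 : Nat.card {g : W D // orderOf g ∣ 48} + Nat.card {g : W D // ¬ orderOf g ∣ 48} =
      Nat.card (W D) := by
    classical
    rw [← Nat.card_sum]
    exact Nat.card_congr (Equiv.sumCompl _)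
  have h3 := card_ker D
  have h1' : (Nat.card {g : W D // ¬ orderOf g ∣ 48} : ℝ) ≤ Nat.card (phi D).ker := by
    exact_mod_cast h1
  have h2' : (Nat.card {g : W D // orderOf g ∣ 48} : ℝ) + Nat.card {g : W D // ¬ orderOf g ∣ 48} =
      Nat.card (W D) := by exact_mod_cast h2
  have h3' : (Nat.card (phi D).ker : ℝ) * 2 ^ n = Nat.card (W D) := by exact_mod_cast h3
  unfold rho
  rw [le_div_iff₀ h0]
  have h4 : (1 / 2 : ℝ) ^ n * Nat.card (W D) = Nat.card (phi D).ker := by
    rw [← h3', mul_comm, mul_assoc, ← mul_pow]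
    norm_num
  rw [sub_mul, one_mul, h4]
  linarith

/-! ### the results -/

lemma rho_le_one (k : ℕ) (G : Type) [Group G] [Finite G] : rho k G ≤ 1 := by
  unfold rho
  apply div_le_one_of_le₀ _ (by positivity)
  exact_mod_cast Nat.card_le_card_of_injective _ Subtype.val_injective

lemma bddAbove (k : ℕ) :
    BddAbove {r : ℝ | ∃ (G : Type) (_ : Group G) (_ : Finite G), ¬ Group.IsSolvable G ∧ r = rho k G} := by
  refine ⟨1, ?_⟩
  rintro r ⟨G, hG, hF, _, rfl⟩
  exact rho_le_one k G

theorem epsilon_48 : epsilon 48 = 1 := by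
  apply le_antisymm
  · apply csSup_le
    · exact ⟨_, W (tower 0), inferInstance, inferInstance, W_not_solvable _, rfl⟩
    · rintro r ⟨G, hG, hF, _, rfl⟩
      exact rho_le_one 48 G
  · apply le_of_forall_sub_le
    intro e he
    obtain ⟨n, hn⟩ := exists_pow_lt_of_lt_one he (by norm_num : (1 / 2 : ℝ) < 1)
    have h1 := le_rho (tower n)
    have h2 : rho 48 (W (tower n)) ≤ epsilon 48 :=
      le_csSup (bddAbove 48) ⟨_, inferInstance, inferInstance, W_not_solvable _, rfl⟩
    linarith

lemma rho_mono {k l : ℕ} (h : k ∣ l) (G : Type) [Group G] [Finite G] : rho k G ≤ rho l G := by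
  unfold rho
  apply div_le_div_of_nonneg_right _ (by positivity)
  exact_mod_cast Nat.card_le_card_of_injective
    (fun g : {g : G // orderOf g ∣ k} => (⟨g.1, g.2.trans h⟩ : {g : G // orderOf g ∣ l}))
    (fun a b hab => Subtype.ext (congrArg (fun u : {g : G // orderOf g ∣ l} => u.1) hab))

lemma epsilon_mono {k l : ℕ} (h : k ∣ l) : epsilon k ≤ epsilon l := by
  apply csSup_le
  · exact ⟨_, W (tower 0), inferInstance, inferInstance, W_not_solvable _, rfl⟩
  · rintro r ⟨G, hG, hF, hS, rfl⟩
    exact (rho_mono h G).trans (le_csSup (bddAbove l) ⟨_, hG, hF, hS, rfl⟩)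

lemma epsilon_le_one (k : ℕ) : epsilon k ≤ 1 := by
  apply csSup_le
  · exact ⟨_, W (tower 0), inferInstance, inferInstance, W_not_solvable _, rfl⟩
  · rintro r ⟨G, hG, hF, _, rfl⟩
    exact rho_le_one k G

/-- `ε_k = 1` for all multiples `k` of `48`. -/
theorem epsilon_eq_one {k : ℕ} (h : 48 ∣ k) : epsilon k = 1 :=
  le_antisymm (epsilon_le_one k) (epsilon_48 ▸ epsilon_mono h)

/-- A finite group whose exponent divides `2 ^ a 3 ^ b` is soluble. -/
theorem solvable_of_exponent {G : Type} [Group G] [Finite G] {a b : ℕ}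
    (h : Monoid.exponent G ∣ 2 ^ a * 3 ^ b) : Group.IsSolvable G := by
  have h1 : ∀ x : G, x ^ (2 ^ a * 3 ^ b) = 1 := fun x => by
    rw [← orderOf_dvd_iff_pow_eq_one]
    exact (Monoid.order_dvd_exponent x).trans h
  obtain ⟨c, d, hcd⟩ := H32BU.x_CRD G 2 3 a b Nat.prime_two Nat.prime_three h1
  exact H32BU.x_BUR G 2 3 c d Nat.prime_two Nat.prime_three hcd

/-- If `ρ_k(G) = 1`, then the exponent of `G` divides `k`. -/
theorem exponent_of_rho {k : ℕ} {G : Type} [Group G] [Finite G] (h1 : rho k G = 1) :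
    Monoid.exponent G ∣ k := by
  rw [Monoid.exponent_dvd]
  intro g
  have h0 : (0 : ℝ) < Nat.card G := by exact_mod_cast Nat.card_pos
  unfold rho at h1
  rw [div_eq_one_iff_eq h0.ne'] at h1
  have h2 : Nat.card {g : G // orderOf g ∣ k} = Nat.card G := by exact_mod_cast h1
  have h3 : Function.Bijective (Subtype.val : {g : G // orderOf g ∣ k} → G) := by
    rw [Nat.bijective_iff_injective_and_card]
    exact ⟨Subtype.val_injective, h2⟩
  obtain ⟨g', rfl⟩ := h3.2 g
  exact g'.2

lemma dvd_48 {a b : ℕ} (ha : 4 ≤ a) (hb : 1 ≤ b) : 48 ∣ 2 ^ a * 3 ^ b :=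
  mul_dvd_mul (show 2 ^ 4 ∣ 2 ^ a from pow_dvd_pow 2 ha) (show 3 ^ 1 ∣ 3 ^ b from pow_dvd_pow 3 hb)

/-- The supremum is not attained for `k = 2 ^ a 3 ^ b`, `a ≥ 4`, `b ≥ 1`. -/
theorem rho_lt_epsilon {a b : ℕ} (ha : 4 ≤ a) (hb : 1 ≤ b) {G : Type} [Group G] [Finite G]
    (h : ¬ Group.IsSolvable G) : rho (2 ^ a * 3 ^ b) G < epsilon (2 ^ a * 3 ^ b) := by
  rw [epsilon_eq_one (dvd_48 ha hb)]
  exact lt_of_le_of_ne (rho_le_one _ G) (fun h1 => h (solvable_of_exponent (exponent_of_rho h1)))

end Pool.Agent.K7.H71.RhoK
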