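import Pool.Agent.K7.H72.SD.PClose

/-!
# Project SD: the relabelling is computed in polynomial time
-/

set_option autoImplicit false

namespace Pool.Agent.K7.H71.SD

open Pool.Agent.NPC Pool.Agent.K7.H42.SD Pool.Agent.NPC.H72SD

theorem poly_key {α : Type} [TEnc α] {L : α → List (List ℕ)} {D : α → List (ℕ × ℕ)} {v : α → ℕ}
    (hL : Poly L) (hD : Poly D) (hv : Poly v) : Poly (fun a => key (L a).length (D a) (v a)) := by
  unfold key
  refine Poly.length (Poly.filter (l := fun a => List.range (L a).length)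
    (p := fun a u => decide ((u, v a) ∈ D a)) (Poly.range_length hL) ?_)
  exact (Poly.decide_mem (Poly.pair (Poly.snd Poly.id) (hv.comp (Poly.fst Poly.id)))
    (hD.comp (Poly.fst Poly.id))).congr fun _ => decide_eq_decide.2 Iff.rfl

theorem poly_pos {α : Type} [TEnc α] {L : α → List (List ℕ)} {D : α → List (ℕ × ℕ)} {v : α → ℕ}
    (hL : Poly L) (hD : Poly D) (hv : Poly v) : Poly (fun a => pos (L a).length (D a) (v a)) := by
  unfold pos
  refine Poly.length (Poly.filter (l := fun a => List.range (L a).length)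
    (p := fun a u => decide (key (L a).length (D a) u < key (L a).length (D a) (v a)) ||
      (decide (key (L a).length (D a) u = key (L a).length (D a) (v a)) && decide (u < v a)))
    (Poly.range_length hL) ?_)
  have hL' : Poly (fun p : α × ℕ => L p.1) := hL.comp (Poly.fst Poly.id)
  have hD' : Poly (fun p : α × ℕ => D p.1) := hD.comp (Poly.fst Poly.id)
  have hv' : Poly (fun p : α × ℕ => v p.1) := hv.comp (Poly.fst Poly.id)
  have hu : Poly (fun p : α × ℕ => p.2) := Poly.snd Poly.id
  have h1 : Poly (fun p : α × ℕ => key (L p.1).length (D p.1) p.2) := poly_key hL' hD' hu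
  have h2 : Poly (fun p : α × ℕ => key (L p.1).length (D p.1) (v p.1)) := poly_key hL' hD' hv'
  exact Poly.or (Poly.decide_lt h1 h2) (Poly.and (Poly.decide_eq h1 h2) (Poly.decide_lt hu hv'))

theorem poly_atp {α : Type} [TEnc α] {L : α → List (List ℕ)} {D : α → List (ℕ × ℕ)} {i : α → ℕ}
    (hL : Poly L) (hD : Poly D) (hi : Poly i) : Poly (fun a => atp (L a).length (D a) (i a)) := by
  have h1 : Poly (fun a => (List.range (L a).length).filter
      (fun v => decide (pos (L a).length (D a) v = i a))) := by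
    refine Poly.filter (l := fun a => List.range (L a).length)
      (p := fun a v => decide (pos (L a).length (D a) v = i a)) (Poly.range_length hL) ?_
    exact Poly.decide_eq (poly_pos (hL.comp (Poly.fst Poly.id)) (hD.comp (Poly.fst Poly.id))
      (Poly.snd Poly.id)) (hi.comp (Poly.fst Poly.id))
  refine (Poly.head?_getD h1 0).congr fun a => ?_
  unfold atp
  rw [List.headD_eq_head?_getD]

/-- JOB PRELAB -/
theorem pRelab : Poly (fun p : List (List ℕ) × List (ℕ × ℕ) => relab p.1 p.2) := by
  unfold relab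
  refine Pool.Agent.NPC.Poly.map (l := fun p : List (List ℕ) × List (ℕ × ℕ) => List.range p.1.length)
    (F := fun (p : List (List ℕ) × List (ℕ × ℕ)) (i : ℕ) => (List.range p.1.length).filter
      (fun j => adjb p.1 (atp p.1.length p.2 i) (atp p.1.length p.2 j)))
    (Poly.range_length (Poly.fst Poly.id)) ?_
  refine Poly.filter (l := fun x : (List (List ℕ) × List (ℕ × ℕ)) × ℕ => List.range x.1.1.length)
    (p := fun (x : (List (List ℕ) × List (ℕ × ℕ)) × ℕ) (j : ℕ) =>
      adjb x.1.1 (atp x.1.1.length x.1.2 x.2) (atp x.1.1.length x.1.2 j))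
    (Poly.range_length (Poly.fst (Poly.fst Poly.id))) ?_
  have hL : Poly (fun x : ((List (List ℕ) × List (ℕ × ℕ)) × ℕ) × ℕ => x.1.1.1) :=
    Poly.fst (Poly.fst (Poly.fst Poly.id))
  have hD : Poly (fun x : ((List (List ℕ) × List (ℕ × ℕ)) × ℕ) × ℕ => x.1.1.2) :=
    Poly.snd (Poly.fst (Poly.fst Poly.id))
  exact poly_adjb' hL (poly_atp hL hD (Poly.snd (Poly.fst Poly.id)))
    (poly_atp hL hD (Poly.snd Poly.id))

end Pool.Agent.K7.H71.SD
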