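import Mathlib
import Pool.Agent.K7.H60.UP.Stm

set_option autoImplicit false

namespace Pool.Agent.K7.H71.UPINC

open Pool.Agent.K7.H60.UP

theorem shift (F : ℝ → ℝ) (hp : Function.Periodic F (2 * Real.pi)) (c : ℝ) :
    ∫ τ in (0 : ℝ)..(2 * Real.pi), F (τ + c) = ∫ τ in (0 : ℝ)..(2 * Real.pi), F τ := by
  rw [intervalIntegral.integral_comp_add_right (fun x => F x) c]
  have h := hp.intervalIntegral_add_eq (0 + c) 0
  rw [zero_add] at h ⊢
  rw [add_comm (2 * Real.pi) c, h, zero_add]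

theorem four (F : ℝ → ℝ) (hc : Continuous F) (hp : Function.Periodic F (2 * Real.pi)) :
    ∫ τ in (0 : ℝ)..(2 * Real.pi), (F τ + F (τ + Real.pi) +
      (F (τ + 3 * Real.pi / 2) + F (τ + Real.pi / 2))) =
    4 * ∫ τ in (0 : ℝ)..(2 * Real.pi), F τ := by
  have c1 : ∀ c : ℝ, Continuous fun τ : ℝ => F (τ + c) := fun c =>
    hc.comp (continuous_id.add continuous_const)
  have i0 := hc.intervalIntegrable (μ := MeasureTheory.volume) 0 (2 * Real.pi)
  have i1 := fun c : ℝ => (c1 c).intervalIntegrable (μ := MeasureTheory.volume) 0 (2 * Real.pi)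
  rw [intervalIntegral.integral_add (i0.add (i1 _)) ((i1 _).add (i1 _)),
    intervalIntegral.integral_add i0 (i1 _), intervalIntegral.integral_add (i1 _) (i1 _),
    shift F hp, shift F hp, shift F hp]
  ring

theorem ph_cont (l : ℝ) (hl : 0 ≤ l) : Continuous (ph l) := by
  unfold ph
  exact (continuous_id.max continuous_const).rpow_const fun _ => Or.inr hl

/-- the function of the job -/
noncomputable def G (l C B ρ τ : ℝ) : ℝ :=
  ph l (C + 2 * B * Real.cos (2 * τ) + 2 * ρ * Real.cos τ)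

theorem G_cont (l C B ρ : ℝ) (hl : 0 ≤ l) : Continuous (G l C B ρ) := by
  unfold G
  refine (ph_cont l hl).comp ?_
  fun_prop

theorem G_per (l C B ρ : ℝ) : Function.Periodic (G l C B ρ) (2 * Real.pi) := by
  intro τ
  unfold G
  have h1 : Real.cos (2 * (τ + 2 * Real.pi)) = Real.cos (2 * τ) := by
    rw [show 2 * (τ + 2 * Real.pi) = 2 * τ + 2 * Real.pi + 2 * Real.pi by ring,
      Real.cos_add_two_pi, Real.cos_add_two_pi]
  rw [h1, Real.cos_add_two_pi]

theorem G_pi (l C B ρ τ : ℝ) : G l C B ρ (τ + Real.pi) =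
    ph l (C + 2 * B * Real.cos (2 * τ) - 2 * ρ * Real.cos τ) := by
  unfold G
  have h1 : Real.cos (2 * (τ + Real.pi)) = Real.cos (2 * τ) := by
    rw [show 2 * (τ + Real.pi) = 2 * τ + 2 * Real.pi by ring, Real.cos_add_two_pi]
  rw [h1, Real.cos_add_pi]
  congr 1
  ring

theorem G_half (l C B ρ τ : ℝ) : G l C B ρ (τ + Real.pi / 2) =
    ph l (C - 2 * B * Real.cos (2 * τ) - 2 * ρ * Real.sin τ) := by
  unfold G
  have h1 : Real.cos (2 * (τ + Real.pi / 2)) = -Real.cos (2 * τ) := by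
    rw [show 2 * (τ + Real.pi / 2) = 2 * τ + Real.pi by ring, Real.cos_add_pi]
  rw [h1, Real.cos_add_pi_div_two]
  congr 1
  ring

theorem G_three (l C B ρ τ : ℝ) : G l C B ρ (τ + 3 * Real.pi / 2) =
    ph l (C - 2 * B * Real.cos (2 * τ) + 2 * ρ * Real.sin τ) := by
  have h : τ + 3 * Real.pi / 2 = (τ + Real.pi) + Real.pi / 2 := by ring
  rw [h, G_half]
  have h1 : Real.cos (2 * (τ + Real.pi)) = Real.cos (2 * τ) := by
    rw [show 2 * (τ + Real.pi) = 2 * τ + 2 * Real.pi by ring, Real.cos_add_two_pi]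
  rw [h1, Real.sin_add_pi]
  congr 1
  ring

theorem t (h4 : StFour) : StInc := by
  intro l C C' B B' ρ ρ' hl hC hB hBB hρ hρρ
  have hl0 : 0 ≤ l := by linarith
  have e1 := four (G l C B ρ) (G_cont l C B ρ hl0) (G_per l C B ρ)
  have e2 := four (G l C' B' ρ') (G_cont l C' B' ρ' hl0) (G_per l C' B' ρ')
  have key : ∫ τ in (0 : ℝ)..(2 * Real.pi), (G l C B ρ τ + G l C B ρ (τ + Real.pi) +
      (G l C B ρ (τ + 3 * Real.pi / 2) + G l C B ρ (τ + Real.pi / 2))) ≤
      ∫ τ in (0 : ℝ)..(2 * Real.pi), (G l C' B' ρ' τ + G l C' B' ρ' (τ + Real.pi) +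
      (G l C' B' ρ' (τ + 3 * Real.pi / 2) + G l C' B' ρ' (τ + Real.pi / 2))) := by
    have c1 : ∀ (C B ρ c : ℝ), Continuous fun τ : ℝ => G l C B ρ (τ + c) := fun C B ρ c =>
      (G_cont l C B ρ hl0).comp (continuous_id.add continuous_const)
    refine intervalIntegral.integral_mono_on (by positivity)
      (Continuous.intervalIntegrable (((G_cont l C B ρ hl0).add (c1 C B ρ _)).add
        ((c1 C B ρ _).add (c1 C B ρ _))) _ _)
      (Continuous.intervalIntegrable (((G_cont l C' B' ρ' hl0).add (c1 C' B' ρ' _)).add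
        ((c1 C' B' ρ' _).add (c1 C' B' ρ' _))) _ _) ?_
    intro τ _
    rw [G_pi, G_pi, G_half, G_half, G_three, G_three]
    exact h4 l C C' B B' ρ ρ' τ hl hC hB hBB hρ hρρ
  rw [e1, e2] at key
  show ∫ τ in (0 : ℝ)..(2 * Real.pi), G l C B ρ τ ≤ ∫ τ in (0 : ℝ)..(2 * Real.pi), G l C' B' ρ' τ
  linarith

end Pool.Agent.K7.H71.UPINC
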